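import Mathlib
import Pool.Agent.K1H89.UB.U24

set_option autoImplicit false

/-!
# The Bateman-Horn formula in EVERY interval of almost optimal length, for almost all systems
-/

namespace Pool.Agent.Results.MP_51e72e_nt.EveryInterval

open Finset Polynomial

/-- the polynomials `f_i = h_i + ∑_{j ≤ d} a_{ij} x ^ j` -/
noncomputable def system {s d : ℕ} (h : Fin s → ℤ[X]) (a : Fin s → Fin (d + 1) → ℤ) (i : Fin s) : ℤ[X] :=
  h i + ∑ j : Fin (d + 1), C (a i j) * X ^ (j : ℕ)

/-- all the coefficient vectors with `|a_{ij}| ≤ H` -/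
noncomputable def family (s d H : ℕ) : Finset (Fin s → Fin (d + 1) → ℤ) :=
  Fintype.piFinset (fun _ => Fintype.piFinset (fun _ => Icc (-(H : ℤ)) H))

/-- `ω_F(p)`: the number of the `n ∈ {1, …, p}` such that `p` divides `f_1(n) ⋯ f_s(n)` -/
noncomputable def omega {s : ℕ} (F : Fin s → ℤ[X]) (p : ℕ) : ℕ :=
  ((Icc 1 p).filter (fun n : ℕ => (p : ℤ) ∣ ∏ i, (F i).eval (n : ℤ))).card

/-- the part of the constant `C_F` of Bateman and Horn over the primes `p ≤ w` -/
noncomputable def constant {s : ℕ} (F : Fin s → ℤ[X]) (w : ℕ) : ℝ :=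
  ∏ p ∈ (Icc 1 w).filter Nat.Prime, (1 - (omega F p : ℝ) / p) / (1 - 1 / (p : ℝ)) ^ s

open Classical in
/-- the number of the integers `u < n ≤ v` such that all the values `|f_i(n)|` are prime -/
noncomputable def count {s : ℕ} (F : Fin s → ℤ[X]) (u v : ℕ) : ℕ :=
  ((Ioc u v).filter (fun n : ℕ => ∀ i, ((F i).eval (n : ℤ)).natAbs.Prime)).card

/-- the Bateman-Horn main term of the interval `(u, v]` -/
noncomputable def mainTerm {s : ℕ} (F : Fin s → ℤ[X]) (H u v : ℕ) : ℝ :=
  constant F ⌊Real.log (Real.log H) / 4⌋₊ * ((v - u : ℕ) : ℝ) / Real.log H ^ s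

/-- If no prime `p > (log log H) / 4` is a fixed prime divisor, then the Bateman-Horn formula holds up to the relative
error `ε` in every interval `(u, v]` with `v ≤ (log H) ^ A` and `v - u ≥ (log H) ^ (s + δ)`. -/
def Good {s : ℕ} (F : Fin s → ℤ[X]) (H A : ℕ) (δ ε : ℝ) : Prop :=
  (∀ p : ℕ, p.Prime → Real.log (Real.log H) / 4 < p → omega F p < p) →
    ∀ u v : ℕ, (v : ℝ) ≤ Real.log H ^ A → (u : ℝ) + Real.log H ^ ((s : ℝ) + δ) ≤ v →
      |(count F u v : ℝ) - mainTerm F H u v| ≤ ε * mainTerm F H u v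

open Pool.Agent.K1H89 Pool.Agent.K1H89.UB Pool.Agent.K1H89.PL

lemma pv_eq {s d : ℕ} (h : Fin s → ℤ[X]) (a : Fin s → Fin (d + 1) → ℤ) (i : Fin s) (n : ℕ) :
    pv (pcen h i) (a i) n = (system h a i).eval (n : ℤ) := by
  unfold pv pcen system
  rw [eval_add, eval_finsetSum]
  congr 1
  apply sum_congr rfl
  intro j _
  rw [eval_mul, eval_C, eval_pow, eval_X]

lemma omega_eq {s d : ℕ} (h : Fin s → ℤ[X]) (a : Fin s → Fin (d + 1) → ℤ) {p : ℕ} (hp : p.Prime) :
    kc (pcen h) p a = omega (system h a) p := by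
  rw [kc_eq (pcen_VPer h) a hp]
  unfold omega FF
  simp only [pv_eq]

lemma constant_eq {s d : ℕ} (h : Fin s → ℤ[X]) (a : Fin s → Fin (d + 1) → ℤ) (w : ℕ) :
    CF (pcen h) w a = constant (system h a) w := by
  unfold CF constant Dw PL.MP prN
  rw [← prod_pow, ← prod_mul_distrib]
  apply prod_congr rfl
  intro p hp
  rw [mem_filter] at hp
  rw [omega_eq h a hp.2, inv_pow, one_div, div_eq_mul_inv _ ((1 - (p : ℝ)⁻¹) ^ s), mul_comm]

lemma count_eq {s d : ℕ} (h : Fin s → ℤ[X]) (a : Fin s → Fin (d + 1) → ℤ) (u v : ℕ) (huv : u ≤ v) :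
    pc (pcen h) a u (v - u) = count (system h a) u v := by
  unfold pc count
  rw [show u + (v - u) = v by omega]
  simp only [pv_eq]

open Classical in
/-- **The Bateman-Horn formula in every interval of almost optimal length.** Let `s ≥ 1`, `A`, `E` and `δ > 0` be
given. For all sufficiently large `d` (in terms of `s, A, E, δ`), all `D` and `ε > 0`, all sufficiently large `H` and all
integer polynomials `h_1, …, h_s` of degree at most `D` with `|h_i(n)| ≤ H (log H) ^ A` for `1 ≤ n ≤ (log H) ^ A`: for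
all but at most a proportion `(log H) ^ (-E)` of the systems `f_i = h_i + ∑_{j ≤ d} a_{ij} x ^ j`, `|a_{ij}| ≤ H`, the
following holds. If no prime `p > (log log H) / 4` divides `f_1(n) ⋯ f_s(n)` for all `n`, then in EVERY interval
`u < n ≤ v ≤ (log H) ^ A` of length `v - u ≥ (log H) ^ (s + δ)` the number of the `n` with `|f_1(n)|, …, |f_s(n)|` all
prime is `(1 + O(ε)) C_F(w) (v - u) / (log H) ^ s`, where `C_F(w)` is the part of the constant `C_F` over the primes
`p ≤ w = (log log H) / 4`. (The exponent `s + δ` is optimal up to `δ`: at the scale `(log H) ^ s` the number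
has a Poisson distribution. If `C_F(w) = 0` then the number is `0`.) -/
theorem result (s A E : ℕ) (hs : 1 ≤ s) (δ : ℝ) (hδ : 0 < δ) :
    ∃ d₀ : ℕ, ∀ d : ℕ, d₀ ≤ d → ∀ (D : ℕ) (ε : ℝ), 0 < ε → ∃ H₀ : ℕ, ∀ H : ℕ, H₀ ≤ H →
    ∀ h : Fin s → ℤ[X], (∀ i, (h i).natDegree ≤ D) →
    (∀ i, ∀ n : ℕ, 1 ≤ n → (n : ℝ) ≤ Real.log H ^ A → |(((h i).eval (n : ℤ) : ℤ) : ℝ)| ≤ H * Real.log H ^ A) →
    (((family s d H).filter (fun a => ¬ Good (system h a) H A δ ε)).card : ℝ) ≤ (family s d H).card / Real.log H ^ E := by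
  obtain ⟨d0, h0⟩ := uniform s A E hs δ hδ
  refine ⟨d0, fun d hd D ε hε => ?_⟩
  obtain ⟨N0, h1⟩ := h0 d hd A D ε hε
  obtain ⟨N1, h2⟩ := evL _ (Filter.eventually_ge_atTop (2 : ℝ))
  refine ⟨max N0 N1, fun H hH h hD hv => ?_⟩
  have hL2 := h2 H (by omega)
  have hfam : family s d H = fam H 1 (0 : Vec s d) := by
    ext a
    rw [mem_fam_shift]
    unfold family
    rw [Fintype.mem_piFinset]
    apply forall_congr'
    intro i
    rw [Fintype.mem_piFinset]
    apply forall_congr'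
    intro j
    rw [mem_Icc]
  rw [hfam]
  refine le_trans ?_ (h1 H (by omega) h hD hv)
  have hsub : (fam H 1 (0 : Vec s d)).filter (fun a => ¬ Good (system h a) H A δ ε) ⊆
      (fam H 1 (0 : Vec s d)).filter (fun a => (∀ p : ℕ, p.Prime → Real.log (Real.log H) / 4 < p → kc (pcen h) p a ≠ p) ∧
      Fails (pcen h) ⌊Real.log (Real.log H) / 4⌋₊ (Real.log H ^ A) (Real.log H ^ ((s : ℝ) + δ)) (Real.log H) ε a) := by
    intro a ha
    rw [mem_filter] at ha ⊢
    obtain ⟨haf, hng⟩ := ha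
    refine ⟨haf, ?_⟩
    unfold Good at hng
    push Not at hng
    obtain ⟨hp, u, v, hvA, huv, hbad⟩ := hng
    have huv' : u ≤ v := by
      have h3 : 0 < Real.log H := by linarith
      have h4 : 0 < Real.log H ^ ((s : ℝ) + δ) := by positivity
      have : (u : ℝ) ≤ v := by linarith
      exact_mod_cast this
    refine ⟨fun p hpp hwp => ?_, u, v - u, ?_, ?_, ?_⟩
    · rw [omega_eq h a hpp]
      exact (hp p hpp hwp).ne
    · rw [show u + (v - u) = v by omega]
      exact hvA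
    · rw [Nat.cast_sub huv']
      linarith
    · rw [constant_eq, count_eq h a u v huv', mul_comm ((v - u : ℕ) : ℝ)]
      exact hbad
  exact_mod_cast card_le_card hsub

end Pool.Agent.Results.MP_51e72e_nt.EveryInterval
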