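import Mathlib
import Pool.Agent.K1H89.LD.B11

/-!
# The law of Poisson for the prime values of random systems of polynomials of large degrees

Fix `s ≥ 1`. Let `d_1, …, d_s` be large degrees and let `H_1, …, H_s` be heights which are only assumed to be at least
a fixed power of the degrees, `H_i ≥ d_i ^ C`. Take arbitrary integer polynomials `h_i` (of any degrees), a class `g`
modulo the product `W` of the primes `p ≤ w`, and let the coefficients `a_{ij}`, `j ≤ d_i`, run over all the integers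
with `|a_{ij}| ≤ H_i`, `a_{ij} ≡ g_{ij} (mod W)`. The systems `F` of this family, `f_i = h_i + ∑_{j ≤ d_i} a_{ij} X ^ j`,
all have the same local factors at the primes `p ≤ w`. At an integer `n ≥ 2` the value of `f_i` has the size of
`H_i n ^ {d_i}`, and the conjecture of Bateman and Horn predicts that all the values at `n` are primes with the
probability `C_F / ∏_i (log H_i + d_i log n)`. The theorem: in disjoint windows below
`(log H_i + d_i) ^ A` in which this predicted number of prime values is bounded, the numbers of the `n` with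
prime values follow the law of Poisson with the predicted means, as `d → ∞` and then `w → ∞`.
-/

set_option autoImplicit false

namespace Pool.Agent.Results.MP_51e72e_nt.LargeDegreePoisson

open Finset Polynomial

/-- The system `f_i = h_i + ∑_{j ≤ d_i} a_{ij} X ^ j`. -/
noncomputable def system {s : ℕ} {d : Fin s → ℕ} (h : Fin s → ℤ[X]) (a : ∀ i, Fin (d i + 1) → ℤ) (i : Fin s) : ℤ[X] :=
  h i + ∑ j, C (a i j) * X ^ (j : ℕ)

/-- `ω_F(p)`: the number of `n ∈ {1, …, p}` with `f_1(n) ⋯ f_s(n) ≡ 0 (mod p)`. -/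
noncomputable def omega {s : ℕ} (F : Fin s → ℤ[X]) (p : ℕ) : ℕ :=
  ((Icc 1 p).filter (fun n : ℕ => (p : ℤ) ∣ ∏ i, (F i).eval (n : ℤ))).card

/-- `C_F(w)`: the part of the product `C_F` over the primes `p ≤ w`. -/
noncomputable def constant {s : ℕ} (F : Fin s → ℤ[X]) (w : ℕ) : ℝ :=
  ∏ p ∈ (Icc 1 w).filter Nat.Prime, (1 - (omega F p : ℝ) / p) / (1 - 1 / (p : ℝ)) ^ s

/-- The number of the integers `n`, `u < n ≤ v`, such that all the `|f_i(n)|` are primes. -/
noncomputable def count {s : ℕ} (F : Fin s → ℤ[X]) (u v : ℕ) : ℕ :=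
  ((Ioc u v).filter (fun n : ℕ => ∀ i, ((F i).eval (n : ℤ)).natAbs.Prime)).card

/-- The family: `|a_{ij}| ≤ H_i` and `a_{ij} ≡ g_{ij}` modulo the product of the primes `p ≤ w`. -/
noncomputable def family {s : ℕ} (d H : Fin s → ℕ) (w : ℕ) (g : ∀ i, Fin (d i + 1) → ℤ) : Finset (∀ i, Fin (d i + 1) → ℤ) :=
  Fintype.piFinset fun i => Fintype.piFinset fun j =>
    (Icc (-(H i : ℤ)) (H i)).filter (fun x => x ≡ g i j [ZMOD ((∏ p ∈ (Icc 1 w).filter Nat.Prime, p : ℕ) : ℤ)])

open Classical in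
/-- The proportion of the systems of the family for which each window `(u_j, v_j]` contains exactly `r_j` integers
`n` such that all the `|f_i(n)|` are primes. -/
noncomputable def proportion {s J : ℕ} (h : Fin s → ℤ[X]) (d H : Fin s → ℕ) (w : ℕ) (g : ∀ i, Fin (d i + 1) → ℤ)
    (u v r : Fin J → ℕ) : ℝ :=
  (((family d H w g).filter (fun a => ∀ j, count (system h a) (u j) (v j) = r j)).card : ℝ) / (family d H w g).card

/-- The product of the `1 / log (H_i n ^ {d_i})`. -/
noncomputable def density {s : ℕ} (d H : Fin s → ℕ) (n : ℕ) : ℝ := ∏ i, (Real.log (H i) + d i * Real.log n)⁻¹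

/-- The predicted number of the `n` in the window `(u, v]`. -/
noncomputable def mean {s : ℕ} (h : Fin s → ℤ[X]) (d H : Fin s → ℕ) (w : ℕ) (g : ∀ i, Fin (d i + 1) → ℤ) (u v : ℕ) : ℝ :=
  constant (system h g) w * ∑ n ∈ Ioc u v, density d H n

/-- The windows `(u_j, v_j]`, `1 ≤ u_j ≤ v_j`, are disjoint, below `(log H_i + d_i) ^ A` for every `i`, and the sum of
the densities over all the windows is at most `λ`. -/
def Windows {s J : ℕ} (A : ℕ) (lam : ℝ) (d H : Fin s → ℕ) (u v : Fin J → ℕ) : Prop :=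
  (∀ j, 1 ≤ u j) ∧ (∀ j, u j ≤ v j) ∧ (∀ i j, (v j : ℝ) ≤ (Real.log (H i) + d i) ^ A) ∧
    (∀ i j, i ≠ j → Disjoint (Ioc (u i) (v i)) (Ioc (u j) (v j))) ∧ ∑ j, ∑ n ∈ Ioc (u j) (v j), density d H n ≤ lam

/-- At the points of the windows `|h_i(n)| ≤ H_i n ^ {d_i} (log H_i + d_i) ^ A`. -/
def Bounded {s J : ℕ} (A : ℕ) (d H : Fin s → ℕ) (h : Fin s → ℤ[X]) (u v : Fin J → ℕ) : Prop :=
  ∀ i j, ∀ n ∈ Ioc (u j) (v j),
    |(((h i).eval (n : ℤ) : ℤ) : ℝ)| ≤ (H i * (n : ℝ) ^ (d i)) * (Real.log (H i) + d i) ^ A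

open Pool.Agent.K1H89.PL
open Pool.Agent.K1H89.LD

lemma mean_eq {s : ℕ} (h : Fin s → ℤ[X]) (d H : Fin s → ℕ) (w : ℕ) (g : ∀ i, Fin (d i + 1) → ℤ) (u v : ℕ) :
    mean h d H w g u v = (rho (primorial w) ^ s * (by classical exact ((((range (primorial w)).filter
      (fun n => okn2 (fun i n => (h i).eval (n : ℤ)) g (primorial w) n)).card : ℝ) / primorial w))) *
      ∑ n ∈ Ioc u v, 1 / lw d H n := by
  unfold mean
  have e : ∑ n ∈ Ioc u v, density d H n = ∑ n ∈ Ioc u v, 1 / lw d H n := by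
    apply sum_congr rfl
    intro n _
    unfold density lw
    rw [prod_inv_distrib, one_div]
  rw [← const_eq2, e]
  rfl

lemma family_eq {s : ℕ} (d H : Fin s → ℕ) (w : ℕ) (g : ∀ i, Fin (d i + 1) → ℤ) : family d H w g = fam2 d H (primorial w) g := by
  rw [primorial_eq]
  rfl

/-- **The law of Poisson for the prime values of random systems of large degrees.** Let `s ≥ 1`, `J`, `A ≥ 1`, `K`
and `ε > 0` be given. There is a `C` such that for all `λ` and all `w ≥ w₀(λ)` there is a `d₀` with the following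
property. Let `d_i ≥ d₀` and `H_i ≥ d_i ^ C` for every `i ≤ s`; let `h_i` be integer polynomials, `g` a class modulo
the product of the primes `p ≤ w`, and `(u_j, v_j]`, `j ≤ J`, disjoint windows below all the `(log H_i + d_i) ^ A`, with
`|h_i(n)| ≤ H_i n ^ {d_i} (log H_i + d_i) ^ A` in the windows, `∑_j ∑_{u_j < n ≤ v_j} ∏_i 1 / log (H_i n ^ {d_i}) ≤ λ`
and `∑ μ_j ≤ K`, where `μ_j = C_F(w) ∑_{u_j < n ≤ v_j} ∏_i 1 / log (H_i n ^ {d_i})` is the same for all the systems of the
family. Then for all `r_1, …, r_J` the proportion of the systems of the family for which each window contains exactly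
`r_j` integers `n` such that all the `|f_i(n)|` are primes differs from `∏_j e ^ {-μ_j} μ_j ^ {r_j} / r_j!` by at
most `ε`. -/
theorem result (s J A : ℕ) (hs : 1 ≤ s) (hA : 1 ≤ A) (K ε : ℝ) (hε : 0 < ε) :
    ∃ C : ℕ, ∀ lam : ℝ, ∃ w₀ : ℕ, ∀ w : ℕ, w₀ ≤ w → ∃ d₀ : ℕ, ∀ d H : Fin s → ℕ, (∀ i, d₀ ≤ d i) → (∀ i, d i ^ C ≤ H i) →
    ∀ (h : Fin s → ℤ[X]) (g : ∀ i, Fin (d i + 1) → ℤ) (u v : Fin J → ℕ), Windows A lam d H u v → Bounded A d H h u v →
    ∀ μ : Fin J → ℝ, (∀ j, μ j = mean h d H w g (u j) (v j)) → ∑ j, μ j ≤ K → ∀ r : Fin J → ℕ,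
    |proportion h d H w g u v r - ∏ j, (Real.exp (-μ j) * (μ j ^ r j / ((r j).factorial : ℝ)))| ≤ ε := by
  classical
  obtain ⟨C, D, h1⟩ := main2 s J A hs hA (max K 0) ε (le_max_right _ _) hε
  refine ⟨C + 1, fun lam => ?_⟩
  obtain ⟨w0, h2⟩ := h1 (max lam 0) (le_max_right _ _)
  refine ⟨w0, fun w hw => ?_⟩
  obtain ⟨L0, h3⟩ := h2 w hw
  obtain ⟨d1, h4⟩ := height C
  refine ⟨max (max d1 D) ⌈L0⌉₊, fun d H hd hH h g u v hW hB μ hμ hμK r => ?_⟩
  obtain ⟨hW1, hW2, hW3, hW4, hW5⟩ := hW
  have hd1 : ∀ i, d1 ≤ d i := fun i => (le_max_left _ _).trans ((le_max_left _ _).trans (hd i))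
  have hdD : ∀ i, D ≤ d i := fun i => (le_max_right _ _).trans ((le_max_left _ _).trans (hd i))
  have hdL : ∀ i, L0 ≤ d i := fun i => (Nat.le_ceil L0).trans (by exact_mod_cast (le_max_right _ _).trans (hd i))
  have hhe := fun i => h4 (d i) (H i) (hd1 i) (hH i)
  obtain ⟨i0, _, hi0⟩ := Finset.exists_min_image (univ : Finset (Fin s)) (fun i => Real.log (H i) + d i) ⟨⟨0, by omega⟩, mem_univ _⟩
  have hpw : ((univ : Finset (Fin J)) : Set (Fin J)).PairwiseDisjoint (fun j => Ioc (u j) (v j)) :=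
    fun i _ j _ hij => hW4 i j hij
  have hdens : ∀ n, density d H n = 1 / lw d H n := by
    intro n
    unfold density lw
    rw [prod_inv_distrib, one_div]
  have hmain := h3 (Real.log (H i0) + d i0) d H (by
      have := Real.log_natCast_nonneg (H i0)
      linarith [hdL i0]) (fun i => (hdD i).trans (Nat.le_succ _)) (fun i => (hhe i).1) (fun i => hi0 i (mem_univ i))
    (fun i => (hhe i).2) (fun i n => (h i).eval (n : ℤ)) g u v (fun i n => eval_period (h i) n (primorial w)) hW1 hW2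
    (fun j => hW3 i0 j) (by
      intro i n hn
      unfold XX at hn
      rw [mem_biUnion] at hn
      obtain ⟨j, _, hj⟩ := hn
      exact hB i j n hj) hpw (by
      rw [XX_sum u v hpw]
      simp only [hdens] at hW5
      exact hW5.trans (le_max_left _ _)) μ (fun j => by rw [hμ j, mean_eq]) (hμK.trans (le_max_left _ _)) r
  unfold Pi0 at hmain
  have e : proportion h d H w g u v r = (((fam2 d H (primorial w) g).filter (fun a => ∀ j,
        ((Ioc (u j) (v j)).filter (fun n => ∀ i, (pv (fun n => (h i).eval (n : ℤ)) (a i) n).natAbs.Prime)).card = r j)).card : ℝ) /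
        (fam2 d H (primorial w) g).card := by
    unfold proportion
    rw [family_eq]
    congr 2
    apply congrArg
    apply filter_congr
    intro a _
    apply forall_congr'
    intro j
    unfold count
    have e2 : (Ioc (u j) (v j)).filter (fun n : ℕ => ∀ i, ((system h a i).eval (n : ℤ)).natAbs.Prime) =
        (Ioc (u j) (v j)).filter (fun n => ∀ i, (pv (fun n => (h i).eval (n : ℤ)) (a i) n).natAbs.Prime) := by
      apply filter_congr
      intro n _
      apply forall_congr'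
      intro i
      rw [← sys2_eval]
      rfl
    rw [e2]
  have e3 : ∏ j, (Real.exp (-μ j) * (μ j ^ r j / ((r j).factorial : ℝ))) =
      Real.exp (-(∑ j, μ j)) * ∏ j, (μ j ^ r j / ((r j).factorial : ℝ)) := by
    rw [prod_mul_distrib, ← Real.exp_sum, sum_neg_distrib]
  rw [e, e3]
  exact hmain

end Pool.Agent.Results.MP_51e72e_nt.LargeDegreePoisson
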