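import Mathlib
import Pool.Agent.K1H50.LM.Po

set_option autoImplicit false

/-!
# Small families of linear polynomials at every scale

Let `N` be large. Let `𝓕` be ANY set of irreducible linear polynomials `a x + b` (of either sign) with `|a| ≤ A`,
`|b| ≤ N`, whose absolute values on `[N / 16, N / 2]` are at least `N / 24`. If `𝓕` has at least
`C (1 + log log H)` members, `H` a bound for the coefficients (so `2 C log log N` members always suffice), then the
systems `F` of `k + 1` members of `𝓕` with `π_F(N) ≥ N / (log N) ^ K` carry at least the proportion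
`(5 / 18) ^ k - ε` (`1 / 3 - ε` for pairs) of the total mass of the constants `C_F`.
`C` and `K` depend on `k` and `ε` alone.

Libraries: the coloured Maynard-Tao theorem with the constant `18 / 5` for linear forms, uniform in the constant
terms (`Pool.Agent.Y827.RO.lamE0`), the density theorem `Pool.Agent.H362R2.CM.dens`, the comparison of the masses
with the classes modulo small primes (`Pool.Agent.H362R2.R1`); all of these are starting files.
-/

namespace Pool.Agent.Results.MP_51e72e_nt.SmallFamiliesAtEveryScale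

open Finset Polynomial Filter Topology

/-- `ω_F(p)`: the number of `n ∈ {1, …, p}` with `∏ f(n) ≡ 0 (mod p)`. -/
noncomputable def omega (F : Finset ℤ[X]) (p : ℕ) : ℕ :=
  ((Icc 1 p).filter (fun n : ℕ => (p : ℤ) ∣ ∏ f ∈ F, f.eval (n : ℤ))).card

/-- The partial product of `C_F` over the primes `p ≤ z`. -/
noncomputable def partialC (F : Finset ℤ[X]) (z : ℕ) : ℝ :=
  ∏ p ∈ (Icc 1 z).filter Nat.Prime, (1 - (omega F p : ℝ) / p) / (1 - 1 / (p : ℝ)) ^ F.card

/-- The constant `C_F`, the limit of the partial products. -/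
noncomputable def CF (F : Finset ℤ[X]) : ℝ := limUnder atTop (partialC F)

open Classical in
/-- The number of the integers `n` with `N / 16 ≤ n ≤ N` such that `|f(n)|` is prime for every `f ∈ F`
(at most `π_F(N)`). -/
noncomputable def count (F : Finset ℤ[X]) (N : ℕ) : ℕ :=
  ((Icc 1 N).filter (fun n : ℕ => (N : ℝ) / 16 ≤ n ∧ ∀ f ∈ F, (f.eval (n : ℤ)).natAbs.Prime)).card

/-- `f = a x + b` is irreducible, `|a| ≤ A`, `|b| ≤ N`, and `|f(t)| ≥ N / 24` for the real `t ∈ [N / 16, N / 2]`. -/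
def Allowed (A N : ℕ) (f : ℤ[X]) : Prop :=
  f.natDegree = 1 ∧ Irreducible f ∧ |f.coeff 1| ≤ A ∧ |f.coeff 0| ≤ N ∧
    ∀ t : ℝ, (N : ℝ) / 16 ≤ t → t ≤ N / 2 → (N : ℝ) / 24 ≤ |(f.coeff 1 : ℝ) * t + f.coeff 0|

/-- The proportion: `1 / 3` for pairs, `(5 / 18) ^ k` for systems of `k + 1` polynomials, `k ≥ 2`. -/
noncomputable def share (k : ℕ) : ℝ := if k = 1 then 1 / 3 else (5 / 18) ^ k

open Pool.Agent.K1H50.LM Pool.Agent.H362R2.R1

open Classical in
lemma part_eq (F : Finset ℤ[X]) (hF : ∀ f ∈ F, LinS f) (hne : ∀ f ∈ F, ∀ g ∈ F, f ≠ -g) :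
    partialC F = fun z : ℕ => ∏ p ∈ (Icc 1 z).filter Nat.Prime, lc (F.image ps) p := by
  funext z
  unfold partialC
  apply prod_congr rfl
  intro p hp
  have hp' := (mem_filter.1 hp).2
  unfold lc omega
  rw [om_ps F hF hp', card_image_of_injOn fun f hf g hg h => ps_inj (hF f hf) (hF g hg) (hne f hf g hg) h]

open Classical in
lemma tend (F : Finset ℤ[X]) (hF : ∀ f ∈ F, LinS f) (hne : ∀ f ∈ F, ∀ g ∈ F, f ≠ -g) :
    Tendsto (partialC F) atTop (𝓝 (BH (F.image ps))) := by
  rw [part_eq F hF hne]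
  apply BH_tendsto
  · intro x hx
    obtain ⟨f, hf, rfl⟩ := Finset.mem_image.1 hx
    exact (hF f hf).pos
  · intro x hx
    obtain ⟨f, hf, rfl⟩ := Finset.mem_image.1 hx
    exact (hF f hf).cop

open Classical in
lemma CF_eq (F : Finset ℤ[X]) (hF : ∀ f ∈ F, LinS f) (hne : ∀ f ∈ F, ∀ g ∈ F, f ≠ -g) :
    CF F = BH (F.image ps) :=
  (tend F hF hne).limUnder_eq

lemma big (A N : ℕ) (f : ℤ[X]) (hf : Allowed A N f) : Big A N (ps f) := by
  obtain ⟨h1, h2, h3, h4, h5⟩ := hf
  have hl : LinS f := ⟨h1, h2⟩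
  refine ⟨hl.pos, ?_, ?_, hl.cop, ?_⟩
  · rcases ps_cases f with ⟨_, h⟩ | ⟨_, h⟩ <;> rw [h]
    · exact (abs_le.1 h3).2
    · simp only
      linarith [(abs_le.1 h3).1]
  · rcases ps_cases f with ⟨_, h⟩ | ⟨_, h⟩ <;> rw [h]
    · exact h4
    · simpa using h4
  · intro t ht1 ht2
    refine (h5 t ht1 ht2).trans (le_of_eq ?_)
    rcases ps_cases f with ⟨_, h⟩ | ⟨_, h⟩ <;> rw [h]
    push_cast
    rw [← abs_neg]
    congr 1
    ring

lemma cls (k : ℕ) (hk : 1 ≤ k) (e : ℝ) (he : 0 < e) : ClsP k (share k - e) := by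
  unfold share
  split_ifs with h
  · subst h
    exact cls3 e he
  · exact cls5 k hk e he

open Classical in
/-- Let `k ≥ 1` and `ε > 0`. There are `C > 0` and `K` such that for every `A`, all sufficiently large `N`, all
`H ≥ 3` and EVERY finite set `𝓕` of at least `C (1 + log log H)` irreducible linear polynomials with coefficients at
most `H` in absolute value, allowed for `A` and `N`, no two of them equal up to sign: the products `C_F` converge, the
sum of `C_F` over the sets `F` of `k + 1` members of `𝓕` is at least `(1 - ε)` times the number of these sets, and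
the sum of `C_F` over those `F` for which there are at least `N / (log N) ^ K` integers `n` in `[N / 16, N]` with all
`|f(n)|`, `f ∈ F`, prime is at least `share k - ε` times the sum over all `F`. -/
theorem result (k : ℕ) (hk : 1 ≤ k) (ε : ℝ) (hε : 0 < ε) : ∃ C : ℝ, 0 < C ∧ ∃ K : ℕ, ∀ A : ℕ, ∃ N₀ : ℕ,
    ∀ N : ℕ, N₀ ≤ N → ∀ (H : ℝ) (𝓕 : Finset ℤ[X]), 3 ≤ H →
    (∀ f ∈ 𝓕, Allowed A N f ∧ ∀ i, |((f.coeff i : ℤ) : ℝ)| ≤ H) → (∀ f ∈ 𝓕, ∀ g ∈ 𝓕, f ≠ -g) →
    C * (1 + Real.log (Real.log H)) ≤ 𝓕.card →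
    (∀ F ⊆ 𝓕, Tendsto (partialC F) atTop (𝓝 (CF F))) ∧
    (1 - ε) * (𝓕.card.choose (k + 1)) ≤ ∑ F ∈ 𝓕.powersetCard (k + 1), CF F ∧
    (share k - ε) * ∑ F ∈ 𝓕.powersetCard (k + 1), CF F ≤
      ∑ F ∈ (𝓕.powersetCard (k + 1)).filter (fun F => (N : ℝ) / Real.log N ^ K ≤ (count F N : ℝ)), CF F := by
  have hs0 : 0 < share k := by
    unfold share; split_ifs <;> positivity
  have hs1 : share k ≤ 1 := by
    unfold share
    split_ifs
    · norm_num
    · exact pow_le_one₀ (by norm_num) (by norm_num)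
  obtain ⟨C, hC, K, h⟩ := mainU k hk (share k) hs0 hs1 (fun e he => cls k hk e he) ε hε
  refine ⟨C, hC, K, fun A => ?_⟩
  obtain ⟨N₀, h⟩ := eventually_atTop.1 (h A)
  refine ⟨N₀, fun N hN H 𝓕 hH hF hne hcard => ?_⟩
  have hlin : ∀ f ∈ 𝓕, LinS f := fun f hf => ⟨(hF f hf).1.1, (hF f hf).1.2.1⟩
  have hinj : Set.InjOn ps (𝓕 : Set ℤ[X]) := fun f hf g hg h =>
    ps_inj (hlin f hf) (hlin g hg) (hne f hf g hg) h
  have hCF : ∀ F ⊆ 𝓕, CF F = BH (F.image ps) := fun F hF' =>
    CF_eq F (fun f hf => hlin f (hF' hf)) (fun f hf g hg => hne f (hF' hf) g (hF' hg))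
  have hc : (𝓕.image ps).card = 𝓕.card := card_image_of_injOn hinj
  have h1 := h N hN H (𝓕.image ps) hH (by
    intro x hx
    obtain ⟨f, hf, rfl⟩ := Finset.mem_image.1 hx
    refine ⟨big A N f (hF f hf).1, ?_, ?_⟩
    · rcases ps_cases f with ⟨_, h⟩ | ⟨_, h⟩ <;> rw [h]
      · exact (hF f hf).2 1
      · have := (hF f hf).2 1
        push_cast
        rwa [abs_neg]
    · rcases ps_cases f with ⟨_, h⟩ | ⟨_, h⟩ <;> rw [h]
      · exact (hF f hf).2 0
      · have := (hF f hf).2 0
        push_cast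
        rwa [abs_neg]) (by rw [hc]; exact hcard)
  rw [hc] at h1
  have e1 := sum_img ps 𝓕 hinj (k + 1) CF BH (fun _ => True) (fun _ => True) hCF (fun _ _ => Iff.rfl)
  simp only [filter_true] at e1
  have e2 := sum_img ps 𝓕 hinj (k + 1) CF BH
    (fun F => (N : ℝ) / Real.log N ^ K ≤ (count F N : ℝ)) (GoodN K N) hCF (by
      intro F hF'
      unfold GoodN
      have : count F N = cntA (F.image ps) N := by
        unfold count cntA
        congr 1
        apply filter_congr
        intro n _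
        apply and_congr_right
        intro _
        constructor
        · intro h2 x hx
          obtain ⟨f, hf, rfl⟩ := Finset.mem_image.1 hx
          rw [← (hlin f (hF' hf)).natAbs]
          exact h2 f hf
        · intro h2 f hf
          rw [(hlin f (hF' hf)).natAbs]
          exact h2 _ (mem_image_of_mem _ hf)
      rw [this])
  refine ⟨fun F hF' => ?_, ?_, ?_⟩
  · rw [hCF F hF']
    exact tend F (fun f hf => hlin f (hF' hf)) (fun f hf g hg => hne f (hF' hf) g (hF' hg))
  · rw [e1]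
    exact h1.1
  · rw [e1, e2]
    exact h1.2

end Pool.Agent.Results.MP_51e72e_nt.SmallFamiliesAtEveryScale
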