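import Mathlib
import Pool.Agent.K1H93.SH.A15

/-!
# The quantitative Hypothesis H for almost all systems of small height and of any degree

Fix `k`, `B` and `ε > 0`, let `w` be large, let `W` be the product of the primes `p ≤ w`, and let `T` be large. Let
`D ≥ 1`, `x` and `L` be such that `T D x ^ 2 ≤ L` and `T ℓ ^ k ≤ x ≤ ℓ ^ B`, where `ℓ = log (L x ^ D)` is about the
logarithm of the values at `x`. Let `g_1, …, g_k` be integer polynomials of degrees at most `2 D` with
`|g_j(n)| ≤ L ℓ ^ B n ^ D` for `1 ≤ n ≤ x` (for example, `X ^ (D + 1)`, or any polynomials of degrees at most `D` with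
coefficients at most `L ℓ ^ (B - 1)`), such that no prime `p ≤ w` divides `g_1(n) ⋯ g_k(n)` for all `n`. Then all but at most
`ε L ^ (k (D + 1))` of the `L ^ (k (D + 1))` systems `f_j = g_j + W ∑_{i ≤ D} b_{ji} X ^ i`, `0 ≤ b_{ji} < L`, satisfy
`|π_F(x) ∏ log |f_j(x)| / x - C_F(w)| ≤ ε C_F(w)`, and (if `T D ℓ ≤ x`, which follows from `T ℓ ^ k ≤ x` for `k ≥ 2` and
`x ≥ 3`) consist of irreducible polynomials, not constant and no two of them equal up to the sign.

The degree is not fixed: `D` may tend to infinity, and the height need only be a power of the degree. With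
`g_j = X ^ (D + 1) + …` the systems consist of monic polynomials.
-/

set_option autoImplicit false

namespace Pool.Agent.Results.MP_51e72e_nt.SmallHeightLargeDegree

open Finset Polynomial

/-- `ℓ = log (L x ^ D)`. -/
noncomputable def size (D x L : ℕ) : ℝ := Real.log L + D * Real.log x

/-- The box: `0 ≤ b_{ji} < L` for `i ≤ D`, `j = 1, …, k`. -/
noncomputable def box (k D L : ℕ) : Finset (Fin k → Fin (D + 1) → ℤ) :=
  Fintype.piFinset fun _ => Fintype.piFinset fun _ => Ico (0 : ℤ) L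

/-- The system `f_j = g_j + W ∑_{i ≤ D} b_{ji} X ^ i`, where `W` is the product of the primes `p ≤ w`. -/
noncomputable def system {k D : ℕ} (w : ℕ) (g : Fin k → ℤ[X]) (b : Fin k → Fin (D + 1) → ℤ) (j : Fin k) : ℤ[X] :=
  g j + C ((∏ p ∈ (Icc 1 w).filter Nat.Prime, p : ℕ) : ℤ) * ∑ i, C (b j i) * X ^ (i : ℕ)

/-- `ω_F(p)`: the number of `n ∈ {1, …, p}` with `f_1(n) ⋯ f_k(n) ≡ 0 (mod p)`. -/
noncomputable def omega {k : ℕ} (F : Fin k → ℤ[X]) (p : ℕ) : ℕ :=
  ((Icc 1 p).filter (fun n : ℕ => (p : ℤ) ∣ ∏ i, (F i).eval (n : ℤ))).card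

/-- `C_F(w)`: the part of the product `C_F` over the primes `p ≤ w`. -/
noncomputable def constant {k : ℕ} (F : Fin k → ℤ[X]) (w : ℕ) : ℝ :=
  ∏ p ∈ (Icc 1 w).filter Nat.Prime, (1 - (omega F p : ℝ) / p) / (1 - 1 / (p : ℝ)) ^ k

/-- `π_F(x)`: the number of the integers `n`, `1 ≤ n ≤ x`, such that all the `|f_j(n)|` are primes. -/
noncomputable def count {k : ℕ} (F : Fin k → ℤ[X]) (x : ℕ) : ℕ :=
  ((Icc 1 x).filter (fun n : ℕ => ∀ j, ((F j).eval (n : ℤ)).natAbs.Prime)).card

/-- The setting of the problem: irreducible polynomials, not constant, no two of them equal up to the sign. -/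
def Proper {k : ℕ} (F : Fin k → ℤ[X]) : Prop :=
  (∀ j, Irreducible (F j) ∧ 0 < (F j).natDegree) ∧ ∀ i j, i ≠ j → F i ≠ F j ∧ F i ≠ -F j

/-- The asymptotic formula for `π_F(x)` up to the relative error `ε`. -/
def Formula {k : ℕ} (F : Fin k → ℤ[X]) (w x : ℕ) (ε : ℝ) : Prop :=
  |(count F x : ℝ) * (∏ j, Real.log |(((F j).eval (x : ℤ) : ℤ) : ℝ)|) / x - constant F w| ≤ ε * constant F w

open Pool.Agent.K1H89.PL Pool.Agent.K1H93.SH

lemma const_rho {k : ℕ} (F : Fin k → ℤ[X]) (w : ℕ) (P : ℕ → Prop) [DecidablePred P]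
    (hP : ∀ n : ℕ, P n ↔ ∀ j, IsCoprime ((F j).eval (n : ℤ)) (primorial w : ℤ)) :
    constant F w = rho (primorial w) ^ k * ((((range (primorial w)).filter P).card : ℝ) / primorial w) := by
  classical
  have h := const_eq (d := 0) F (fun _ _ => 0) w
  have e1 : sys F (fun (_ : Fin k) (_ : Fin (0 + 1)) => (0 : ℤ)) = F := by
    funext i
    unfold sys
    simp
  have e2 : ∀ n : ℕ, okn (fun i n => (F i).eval (n : ℤ)) (fun (_ : Fin k) (_ : Fin (0 + 1)) => (0 : ℤ)) (primorial w) n ↔ P n := by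
    intro n
    rw [hP n]
    unfold okn pv
    simp
  rw [e1] at h
  unfold constant omega
  have e3 : (range (primorial w)).filter (fun n => okn (fun i n => (F i).eval (n : ℤ)) (fun (_ : Fin k) (_ : Fin (0 + 1)) => (0 : ℤ)) (primorial w) n) =
      (range (primorial w)).filter P := filter_congr fun n _ => e2 n
  rw [e3] at h
  exact h

lemma const_pos {k : ℕ} (g : Fin k → ℤ[X]) (w : ℕ) (hg : ∀ p : ℕ, p.Prime → p ≤ w → omega g p < p) : 0 < constant g w := by
  unfold constant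
  apply prod_pos
  intro p hp
  rw [mem_filter, mem_Icc] at hp
  have h1 : (omega g p : ℝ) < p := by exact_mod_cast hg p hp.2 hp.1.2
  have h2 : (1 : ℝ) < p := by exact_mod_cast hp.2.one_lt
  have h0 : (0 : ℝ) < p := by linarith
  have h3 : 0 < 1 - (omega g p : ℝ) / p := by
    rw [sub_pos, div_lt_one h0]
    exact h1
  have h4 : 0 < 1 - 1 / (p : ℝ) := by
    rw [sub_pos, div_lt_one h0]
    exact h2
  positivity

lemma system_eq {k D : ℕ} (w : ℕ) (g : Fin k → ℤ[X]) (b : Fin k → Fin (D + 1) → ℤ) : system w g b = psys (primorial w) g b := by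
  funext j
  unfold system psys
  rw [primorial_eq]
  rfl

open Classical in
/-- **The quantitative Hypothesis H for almost all systems of small height and of any degree.** Let `k`, `B` and
`ε > 0` be given. For all `w ≥ w₀` there is `T` such that for all `D ≥ 1`, `x ≥ 1` and `L` with `T D x ^ 2 ≤ L` and
`T ℓ ^ k ≤ x ≤ ℓ ^ B`, `ℓ = log (L x ^ D)`, and all integer polynomials `g_1, …, g_k` of degrees at most `2 D`, with
`|g_j(n)| ≤ L ℓ ^ B n ^ D` for `1 ≤ n ≤ x`, such that no prime `p ≤ w` divides `g_1(n) ⋯ g_k(n)` for all `n`: for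
all but at most `ε L ^ (k (D + 1))` of the `L ^ (k (D + 1))` systems `f_j = g_j + W ∑_{i ≤ D} b_{ji} X ^ i`,
`0 ≤ b_{ji} < L`,

* `|π_F(x) ∏ log |f_j(x)| / x - C_F(w)| ≤ ε C_F(w)`;
* if `T D ℓ ≤ x`, then the `f_j` are irreducible, not constant, and no two of them are equal up to the sign. -/
theorem result (k B : ℕ) (ε : ℝ) (hε : 0 < ε) :
    ∃ w₀ : ℕ, ∀ w : ℕ, w₀ ≤ w → ∃ T : ℝ, 0 < T ∧ ∀ D x L : ℕ, 1 ≤ D → 1 ≤ x → T * D * (x : ℝ) ^ 2 ≤ L →
    T * size D x L ^ k ≤ x → (x : ℝ) ≤ size D x L ^ B →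
    ∀ g : Fin k → ℤ[X], (∀ j, (g j).natDegree ≤ 2 * D) →
    (∀ j, ∀ n : ℕ, 1 ≤ n → n ≤ x → |(((g j).eval (n : ℤ) : ℤ) : ℝ)| ≤ L * size D x L ^ B * (n : ℝ) ^ D) →
    (∀ p : ℕ, p.Prime → p ≤ w → omega g p < p) →
    (((box k D L).filter (fun b => ¬ (Formula (system w g b) w x ε ∧
      (T * D * size D x L ≤ x → Proper (system w g b))))).card : ℝ) ≤ ε * (box k D L).card := by
  obtain ⟨ε', hε'⟩ : ∃ ε' : ℝ, ε' = min ε 1 := ⟨_, rfl⟩
  have hε'0 : 0 < ε' := by rw [hε']; exact lt_min hε one_pos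
  have hε'1 : ε' ≤ 1 := by rw [hε']; exact min_le_right _ _
  have hε'ε : ε' ≤ ε := by rw [hε']; exact min_le_left _ _
  obtain ⟨w₀, hw₀⟩ := full k B ε' hε'0 hε'1
  refine ⟨w₀, fun w hw => ?_⟩
  obtain ⟨T, hT1, hT⟩ := hw₀ w hw (primorial w) (primorial_pos w) (fun p hp hpw => hp.dvd_primorial_iff.2 hpw)
  refine ⟨T, by linarith, fun D x L hD hx hL hxT hxB g hgd hgv hom => ?_⟩
  obtain ⟨d, rfl⟩ : ∃ d, D = d + 1 := ⟨D - 1, by omega⟩
  have hsz : size (d + 1) x L = ell d x L := by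
    unfold size ell
    push_cast
    rfl
  rw [hsz] at hxT hxB hgv ⊢
  have hcast : ((d + 1 : ℕ) : ℝ) = (d : ℝ) + 1 := by push_cast; rfl
  rw [hcast] at hL ⊢
  have hcg := const_rho g w (fun n : ℕ => ∀ j, IsCoprime ((g j).eval (n : ℤ)) (primorial w : ℤ)) (fun n => Iff.rfl)
  have hpos := const_pos g w hom
  have hPe : ∃ m : ℕ, ∀ j, IsCoprime ((g j).eval (m : ℤ)) (primorial w : ℤ) := by
    by_contra hcon
    push Not at hcon
    have h1 : (range (primorial w)).filter (fun n : ℕ => ∀ j, IsCoprime ((g j).eval (n : ℤ)) (primorial w : ℤ)) = ∅ := by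
      rw [filter_eq_empty_iff]
      intro n _ h
      obtain ⟨j, hj⟩ := hcon n
      exact hj (h j)
    rw [hcg, h1] at hpos
    simp at hpos
  have hC : ∀ b : Fin k → Fin (d + 1 + 1) → ℤ, constant (psys (primorial w) g b) w =
      rho (primorial w) ^ k * ((((range (primorial w)).filter (fun n : ℕ => ∀ j, IsCoprime ((g j).eval (n : ℤ)) (primorial w : ℤ))).card : ℝ) /
        primorial w) := by
    intro b
    apply const_rho
    intro n
    apply forall_congr'
    intro j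
    rw [psys_eval]
    exact (cop_add _ _).symm
  have h := hT d x L hx hxT hxB hL g hgd hgv (fun n : ℕ => ∀ j, IsCoprime ((g j).eval (n : ℤ)) (primorial w : ℤ))
    (fun n => Iff.rfl) hPe _ rfl
  have hbox : box k (d + 1) L = om k (d + 2) L := rfl
  rw [hbox]
  have hsub : (om k (d + 2) L).filter (fun b => ¬ (Formula (system w g b) w x ε ∧
      (T * ((d : ℝ) + 1) * ell d x L ≤ x → Proper (system w g b)))) ⊆
      (om k (d + 2) L).filter (fun b => ¬ (|((((Icc 1 x).filter (fun n : ℕ => ∀ j, ((psys (primorial w) g b j).eval (n : ℤ)).natAbs.Prime)).card : ℕ) : ℝ) *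
      (∏ j, Real.log |(((psys (primorial w) g b j).eval (x : ℤ) : ℤ) : ℝ)|) / x -
        rho (primorial w) ^ k * ((((range (primorial w)).filter (fun n : ℕ => ∀ j, IsCoprime ((g j).eval (n : ℤ)) (primorial w : ℤ))).card : ℝ) /
        primorial w)| ≤ ε' * (rho (primorial w) ^ k * ((((range (primorial w)).filter (fun n : ℕ => ∀ j, IsCoprime ((g j).eval (n : ℤ)) (primorial w : ℤ))).card : ℝ) /
        primorial w)) ∧
      (T * (d + 1) * ell d x L ≤ x → Pool.Agent.K1H93.SH.Proper (psys (primorial w) g b)))) := by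
    intro b hb
    rw [mem_filter] at hb ⊢
    refine ⟨hb.1, fun hgood => hb.2 ?_⟩
    rw [system_eq]
    refine ⟨?_, fun h' => hgood.2 h'⟩
    unfold Formula
    rw [hC b]
    refine hgood.1.trans ?_
    apply mul_le_mul_of_nonneg_right hε'ε
    rw [← hcg]
    exact hpos.le
  have h1 : (((om k (d + 2) L).filter (fun b => ¬ (Formula (system w g b) w x ε ∧
      (T * ((d : ℝ) + 1) * ell d x L ≤ x → Proper (system w g b))))).card : ℝ) ≤ _ := (Nat.cast_le (α := ℝ)).2 (card_le_card hsub)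
  refine h1.trans (h.trans ?_)
  exact mul_le_mul_of_nonneg_right hε'ε (Nat.cast_nonneg _)

end Pool.Agent.Results.MP_51e72e_nt.SmallHeightLargeDegree
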